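import Pool.Agent.Y251.LT.Stm

/-!
# Job LT-STR: the structure of a pole
-/

set_option autoImplicit false

open MeasureTheory Complex Metric Set Filter Topology
open scoped Real ComplexConjugate

namespace Pool.Agent.Y385.LT

open Pool.Agent.Y251.LT

theorem per_nat {g : ℂ → ℂ} {t₀ : ℝ} (hg : Per g t₀) (n : ℕ) : ∀ ζ : ℂ, t₀ < ζ.re →
    g (ζ + (n : ℂ) * (2 * (π : ℂ) * I)) = g ζ := by
  induction n with
  | zero =>
    intro ζ _
    simp
  | succ n ih =>
    intro ζ hζ
    have h1 : ζ + ((n + 1 : ℕ) : ℂ) * (2 * (π : ℂ) * I) =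
        (ζ + (n : ℂ) * (2 * (π : ℂ) * I)) + 2 * (π : ℂ) * I := by
      push_cast
      ring
    have h2 : (ζ + (n : ℂ) * (2 * (π : ℂ) * I)).re = ζ.re := by
      simp
    rw [h1, hg.per _ (by rw [h2]; exact hζ), ih ζ hζ]

theorem per_int {g : ℂ → ℂ} {t₀ : ℝ} (hg : Per g t₀) (n : ℤ) (ζ : ℂ) (hζ : t₀ < ζ.re) :
    g (ζ + (n : ℂ) * (2 * (π : ℂ) * I)) = g ζ := by
  obtain ⟨k, rfl | rfl⟩ := n.eq_nat_or_neg
  · have := per_nat hg k ζ hζ
    simpa using this
  · have h2 : (ζ + ((-(k : ℤ) : ℤ) : ℂ) * (2 * (π : ℂ) * I)).re = ζ.re := by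
      simp
    have := per_nat hg k (ζ + ((-(k : ℤ) : ℤ) : ℂ) * (2 * (π : ℂ) * I)) (by rw [h2]; exact hζ)
    rw [← this]
    congr 1
    push_cast
    ring

theorem per_log {g : ℂ → ℂ} {t₀ : ℝ} (hg : Per g t₀) (ζ : ℂ) (hζ : t₀ < ζ.re) :
    g (-Complex.log (Complex.exp (-ζ))) = g ζ := by
  have h1 : Complex.exp (Complex.log (Complex.exp (-ζ))) = Complex.exp (-ζ) :=
    Complex.exp_log (Complex.exp_ne_zero _)
  obtain ⟨n, hn⟩ := Complex.exp_eq_exp_iff_exists_int.1 h1
  have h2 : -Complex.log (Complex.exp (-ζ)) = ζ + ((-n : ℤ) : ℂ) * (2 * (π : ℂ) * I) := by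
    rw [hn]
    push_cast
    ring
  rw [h2, per_int hg (-n) ζ hζ]

theorem step {g : ℂ → ℂ} {t₀ : ℝ} (k : ℕ) : ∀ H : ℂ → ℂ,
    DifferentiableOn ℂ H (ball 0 (Real.exp (-t₀))) →
    (∀ ζ : ℂ, t₀ < ζ.re → g ζ = Complex.exp (((k + 1 : ℕ) : ℂ) * ζ) * H (Complex.exp (-ζ))) →
    (∃ C' : ℝ, ∀ ζ : ℂ, t₀ + 1 < ζ.re → ‖g ζ‖ ≤ C' * Real.exp ζ.re) ∨
    ∃ (m : ℕ) (c : ℂ) (R : ℂ → ℂ), 2 ≤ m ∧ c ≠ 0 ∧
      DifferentiableOn ℂ R (ball 0 (Real.exp (-t₀))) ∧
      ∀ ζ : ℂ, t₀ < ζ.re →
        g ζ = Complex.exp ((m : ℂ) * ζ) * (c + Complex.exp (-ζ) * R (Complex.exp (-ζ))) := by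
  induction k with
  | zero =>
    intro H hH hg
    left
    have hsub : closedBall (0 : ℂ) (Real.exp (-(t₀ + 1))) ⊆ ball 0 (Real.exp (-t₀)) :=
      closedBall_subset_ball (Real.exp_lt_exp.2 (by linarith))
    obtain ⟨B, hB⟩ := (isCompact_closedBall (0 : ℂ) (Real.exp (-(t₀ + 1)))).exists_bound_of_continuousOn
      (hH.continuousOn.mono hsub)
    refine ⟨B, fun ζ hζ => ?_⟩
    rw [hg ζ (by linarith)]
    have h1 : Complex.exp (-ζ) ∈ closedBall (0 : ℂ) (Real.exp (-(t₀ + 1))) := by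
      rw [mem_closedBall, dist_zero_right, Complex.norm_exp]
      refine Real.exp_le_exp.2 ?_
      rw [Complex.neg_re]
      linarith
    have h2 := hB _ h1
    rw [norm_mul, Complex.norm_exp, mul_comm B]
    have h3 : (((0 + 1 : ℕ) : ℂ) * ζ).re = ζ.re := by simp
    rw [h3]
    exact mul_le_mul_of_nonneg_left h2 (Real.exp_pos _).le
  | succ k ih =>
    intro H hH hg
    have hnh : ball (0 : ℂ) (Real.exp (-t₀)) ∈ 𝓝 (0 : ℂ) := ball_mem_nhds _ (Real.exp_pos _)
    have hR : DifferentiableOn ℂ (dslope H 0) (ball 0 (Real.exp (-t₀))) :=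
      (Complex.differentiableOn_dslope hnh).2 hH
    have hds : ∀ w : ℂ, H w = H 0 + w * dslope H 0 w := fun w => by
      have := sub_smul_dslope H 0 w
      rw [sub_zero, smul_eq_mul] at this
      rw [this]
      ring
    by_cases h0 : H 0 = 0
    · refine ih (dslope H 0) hR fun ζ hζ => ?_
      rw [hg ζ hζ, hds (Complex.exp (-ζ)), h0, zero_add, ← mul_assoc, ← Complex.exp_add]
      congr 2
      push_cast
      ring
    · right
      refine ⟨k + 1 + 1, H 0, dslope H 0, by omega, h0, hR, fun ζ hζ => ?_⟩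
      rw [hg ζ hζ, ← hds]

theorem str : S_STR := by
  intro g t₀ C N hg hb
  set S : ℂ → ℂ := fun z => g (-Complex.log z) with hS
  have hSe : ∀ ζ : ℂ, t₀ < ζ.re → S (Complex.exp (-ζ)) = g ζ := fun ζ hζ => per_log hg ζ hζ
  have hre : ∀ z : ℂ, (-Complex.log z).re = -Real.log ‖z‖ := fun z => by
    rw [Complex.neg_re, Complex.log_re]
  have hSd : ∀ z₀ : ℂ, z₀ ≠ 0 → ‖z₀‖ < Real.exp (-t₀) → DifferentiableAt ℂ S z₀ := by
    intro z₀ hz₀ hn
    have h1 : DifferentiableAt ℂ (fun z => -(Complex.log (z / z₀) + Complex.log z₀)) z₀ := by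
      have h2 : DifferentiableAt ℂ (fun z : ℂ => z / z₀) z₀ := differentiableAt_id.div_const z₀
      have h3 : DifferentiableAt ℂ (fun z : ℂ => Complex.log (z / z₀)) z₀ := by
        refine DifferentiableAt.clog h2 ?_
        rw [div_self hz₀]
        exact Complex.one_mem_slitPlane
      exact (h3.add_const _).neg
    have hval : -(Complex.log (z₀ / z₀) + Complex.log z₀) = -Complex.log z₀ := by
      rw [div_self hz₀, Complex.log_one, zero_add]
    have hlog : t₀ < -Real.log ‖z₀‖ := by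
      have := (Real.log_lt_iff_lt_exp (norm_pos_iff.2 hz₀)).2 hn
      linarith
    have hopen : IsOpen {ζ : ℂ | t₀ < ζ.re} := isOpen_lt continuous_const Complex.continuous_re
    have h4 : DifferentiableAt ℂ g (-(Complex.log (z₀ / z₀) + Complex.log z₀)) := by
      rw [hval]
      refine hg.diff.differentiableAt (hopen.mem_nhds ?_)
      show t₀ < (-Complex.log z₀).re
      rw [hre]
      exact hlog
    have h5 : DifferentiableAt ℂ (fun z => g (-(Complex.log (z / z₀) + Complex.log z₀))) z₀ :=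
      DifferentiableAt.comp z₀ h4 h1
    refine h5.congr_of_eventuallyEq ?_
    have hev : ∀ᶠ z in 𝓝 z₀, z ≠ 0 ∧ ‖z‖ < Real.exp (-t₀) :=
      (isOpen_ne.eventually_mem hz₀).and ((isOpen_lt continuous_norm continuous_const).eventually_mem
        hn)
    filter_upwards [hev] with z hz
    have h6 : Complex.exp (-(-(Complex.log (z / z₀) + Complex.log z₀))) = z := by
      rw [neg_neg, Complex.exp_add, Complex.exp_log (div_ne_zero hz.1 hz₀), Complex.exp_log hz₀,
        div_mul_cancel₀ _ hz₀]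
    have h7 : t₀ < (-(Complex.log (z / z₀) + Complex.log z₀)).re := by
      have h8 : (-(Complex.log (z / z₀) + Complex.log z₀)).re = -Real.log ‖z‖ := by
        rw [Complex.neg_re, Complex.add_re, Complex.log_re, Complex.log_re, norm_div,
          Real.log_div (norm_ne_zero_iff.2 hz.1) (norm_ne_zero_iff.2 hz₀)]
        ring
      rw [h8]
      have := (Real.log_lt_iff_lt_exp (norm_pos_iff.2 hz.1)).2 hz.2
      linarith
    have h9 := hSe _ h7
    rw [h6] at h9
    exact h9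
  obtain ⟨M, hM⟩ := exists_nat_ge N
  set H : ℂ → ℂ := fun z => z ^ (M + 1) * S z with hH
  set K : ℝ := Real.exp (C + (M - N) * (-(t₀ + 1))) with hK
  have hHb : ∀ z : ℂ, ‖z‖ < Real.exp (-(t₀ + 1)) → ‖H z‖ ≤ K * ‖z‖ := by
    intro z hz
    by_cases h0 : z = 0
    · rw [hH]
      simp [h0]
    · have hp : 0 < ‖z‖ := norm_pos_iff.2 h0
      have hl := (Real.log_lt_iff_lt_exp hp).2 hz
      have h1 : ‖S z‖ ≤ Real.exp (C + N * (-Real.log ‖z‖)) := by
        have := hb (-Complex.log z) (by rw [hre]; linarith)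
        rw [hre] at this
        exact this
      have h2 : ‖z‖ ^ M = Real.exp (M * Real.log ‖z‖) := by
        rw [Real.exp_nat_mul, Real.exp_log hp]
      rw [hH]
      simp only [norm_mul, norm_pow]
      rw [pow_succ, mul_assoc, mul_comm ‖z‖, ← mul_assoc]
      refine mul_le_mul_of_nonneg_right ?_ hp.le
      calc ‖z‖ ^ M * ‖S z‖ ≤ Real.exp (M * Real.log ‖z‖) * Real.exp (C + N * (-Real.log ‖z‖)) := by
            rw [h2]
            exact mul_le_mul_of_nonneg_left h1 (Real.exp_pos _).le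
        _ = Real.exp (C + (M - N) * Real.log ‖z‖) := by
            rw [← Real.exp_add]
            congr 1
            ring
        _ ≤ K := by
            rw [hK]
            refine Real.exp_le_exp.2 ?_
            have := mul_le_mul_of_nonneg_left hl.le (sub_nonneg.2 hM)
            linarith
  have hH0 : H 0 = 0 := by
    rw [hH]
    simp
  have hHc : ContinuousAt H 0 := by
    rw [ContinuousAt, hH0]
    refine squeeze_zero_norm' (a := fun z : ℂ => K * ‖z‖) ?_ ?_
    · filter_upwards [ball_mem_nhds (0 : ℂ) (Real.exp_pos (-(t₀ + 1)))] with z hz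
      refine hHb z ?_
      rwa [mem_ball, dist_zero_right] at hz
    · have h1 : Continuous fun z : ℂ => K * ‖z‖ := continuous_const.mul continuous_norm
      have h2 := h1.tendsto 0
      simpa using h2
  have hHd : DifferentiableOn ℂ H (ball 0 (Real.exp (-t₀))) := by
    refine (Complex.differentiableOn_compl_singleton_and_continuousAt_iff
      (ball_mem_nhds _ (Real.exp_pos _))).1 ⟨?_, hHc⟩
    rintro z ⟨hz1, hz2⟩
    rw [mem_ball, dist_zero_right] at hz1
    have h0 : z ≠ 0 := hz2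
    exact ((differentiableAt_id.pow (M + 1)).mul (hSd z h0 hz1)).differentiableWithinAt
  refine step M H hHd fun ζ hζ => ?_
  rw [hH]
  simp only
  rw [hSe ζ hζ, ← mul_assoc, ← Complex.exp_nat_mul, ← Complex.exp_add]
  have : ((M + 1 : ℕ) : ℂ) * ζ + ((M + 1 : ℕ) : ℂ) * -ζ = 0 := by ring
  rw [this, Complex.exp_zero, one_mul]

end Pool.Agent.Y385.LT
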